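import Mathlib

/-!
# The finite part of the two-descent

The places `2`, `3`, `5` (congruences modulo `32`, `9`, `25`), the place `p` (quadratic characters of `-1`, `2`, `3`,
`5` modulo `p`) and the table of the residue classes.
-/

set_option autoImplicit false

namespace Pool.Agent.V7H37.XE

/-- the squares modulo `32` -/
def S32 : List ℤ := [0, 1, 4, 9, 16, 17, 25]
/-- the squares modulo `9` -/
def S9 : List ℤ := [0, 1, 4, 7]
/-- the squares modulo `25` -/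
def S25 : List ℤ := [0, 1, 4, 6, 9, 11, 14, 16, 19, 21, 24]

/-- there are `U, V, W, s` in `S`, not all divisible by `l`, with `a U - 9 g s = b V` and `a U + 16 g s = c W` modulo
`M` -/
def okb (S : List ℤ) (M l g a b c : ℤ) : Bool :=
  S.any fun U => S.any fun s => S.any fun V =>
    ((a * U - 9 * (g * s) - b * V) % M == 0) && S.any fun W =>
      ((a * U + 16 * (g * s) - c * W) % M == 0) &&
        !((U % l == 0) && (V % l == 0) && (W % l == 0) && (s % l == 0))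

/-- the divisors of `30` with sign -/
def vl (i x2 x3 x5 : Bool) : ℤ :=
  (if i then -1 else 1) * (if x2 then 2 else 1) * (if x3 then 3 else 1) * (if x5 then 5 else 1)

/-- the quadratic character modulo `p` of `vl i x2 x3 x5` in additive notation, if `n0, n2, n3, n5` are those of
`-1, 2, 3, 5` -/
def ch (n0 n2 n3 n5 i x2 x3 x5 : Bool) : Bool :=
  ((n0 && i) ^^ (n2 && x2)) ^^ ((n3 && x3) ^^ (n5 && x5))

def bl : List Bool := [false, true]

/-- no class but the trivial one satisfies the local conditions -/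
def chk (f r8 r3 r5 : ℕ) : Bool :=
  bl.all fun i => bl.all fun a2 => bl.all fun a3 => bl.all fun a5 =>
    (ch (r8 % 4 == 3) (r8 == 3 || r8 == 5) ((r3 == 2) ^^ (r8 % 4 == 3)) (r5 == 2) i a2 a3 a5) ||
    bl.all fun b2 => bl.all fun b3 => bl.all fun b5 =>
    (ch (r8 % 4 == 3) (r8 == 3 || r8 == 5) ((r3 == 2) ^^ (r8 % 4 == 3)) (r5 == 2) i b2 b3 b5) ||
    !(okb S9 9 3 (f * r3) (vl i a2 a3 a5) (vl i b2 b3 b5) (vl false (a2 ^^ b2) (a3 ^^ b3) (a5 ^^ b5))) ||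
    !(okb S32 32 2 (f * r8) (vl i a2 a3 a5) (vl i b2 b3 b5) (vl false (a2 ^^ b2) (a3 ^^ b3) (a5 ^^ b5))) ||
    !(okb S25 25 5 (f * r5) (vl i a2 a3 a5) (vl i b2 b3 b5) (vl false (a2 ^^ b2) (a3 ^^ b3) (a5 ^^ b5))) ||
    (!i && !a2 && !a3 && !a5 && !b2 && !b3 && !b5)

/-- the table of the classes `(f, p mod 8, p mod 3, r5)`, where `r5 = 1` if `p` is `± 1` modulo `5` and `r5 = 2` if
`p` is `± 2` modulo `5` -/
def Tab : List (ℕ × ℕ × ℕ × ℕ) :=
  [(2, 1, 2, 2), (2, 3, 1, 1), (2, 5, 1, 1), (2, 7, 2, 2),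
   (3, 1, 2, 1), (3, 3, 1, 1), (3, 3, 2, 1), (3, 5, 2, 1), (3, 7, 1, 1),
   (5, 1, 1, 2), (5, 3, 1, 2), (5, 7, 1, 2),
   (6, 1, 2, 2), (6, 5, 1, 2), (6, 5, 2, 2), (6, 7, 1, 2),
   (10, 1, 2, 2), (10, 3, 2, 1), (10, 3, 2, 2), (10, 5, 2, 1), (10, 5, 2, 2), (10, 7, 2, 2),
   (15, 1, 1, 2), (15, 1, 2, 1), (15, 1, 2, 2), (15, 3, 2, 1), (15, 5, 1, 2), (15, 5, 2, 1), (15, 5, 2, 2),
   (15, 7, 1, 2), (15, 7, 2, 2),
   (30, 1, 1, 2), (30, 1, 2, 1), (30, 3, 2, 1), (30, 5, 1, 1), (30, 7, 1, 1), (30, 7, 1, 2)]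

theorem chk_all : (Tab.all fun t => chk t.1 t.2.1 t.2.2.1 t.2.2.2) = true := by
  decide +kernel

end Pool.Agent.V7H37.XE
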