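import Mathlib
import Pool.Agent.V7H37.XE.Chk

/-! The local conditions at `2`, `3`, `5` and the characters modulo `p`. -/

set_option autoImplicit false

namespace Pool.Agent.V7H37.XE

lemma ok_of {S : List ℤ} {M l : ℤ}
    (hsq : ∀ u : ℤ, ∃ U ∈ S, M ∣ u ^ 2 - U ∧ (U % l = 0 → l ∣ u)) {n r : ℤ}
    (htw : ∀ z : ℤ, ∃ s ∈ S, M ∣ n * z ^ 2 - r * s ∧ (s % l = 0 → l ∣ z)) {f a b c u v w z : ℤ}
    (e12 : a * u ^ 2 + -9 * (f * n) * z ^ 2 = b * v ^ 2)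
    (e13 : a * u ^ 2 + 16 * (f * n) * z ^ 2 = c * w ^ 2)
    (pr : ¬(l ∣ z ∧ l ∣ u ∧ l ∣ v ∧ l ∣ w)) : okb S M l (f * r) a b c = true := by
  obtain ⟨U, hU, dU, lU⟩ := hsq u
  obtain ⟨V, hV, dV, lV⟩ := hsq v
  obtain ⟨W, hW, dW, lW⟩ := hsq w
  obtain ⟨s, hs, ds, ls⟩ := htw z
  unfold okb
  rw [List.any_eq_true]
  refine ⟨U, hU, ?_⟩
  rw [List.any_eq_true]
  refine ⟨s, hs, ?_⟩
  rw [List.any_eq_true]
  refine ⟨V, hV, ?_⟩
  rw [Bool.and_eq_true]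
  constructor
  · rw [beq_iff_eq]
    apply Int.emod_eq_zero_of_dvd
    have : a * U - 9 * (f * r * s) - b * V =
        -(a * (u ^ 2 - U)) + 9 * f * (n * z ^ 2 - r * s) + b * (v ^ 2 - V) := by
      linear_combination e12
    rw [this]
    exact dvd_add (dvd_add ((dU.mul_left a).neg_right) (ds.mul_left _)) (dV.mul_left b)
  · rw [List.any_eq_true]
    refine ⟨W, hW, ?_⟩
    rw [Bool.and_eq_true]
    constructor
    · rw [beq_iff_eq]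
      apply Int.emod_eq_zero_of_dvd
      have : a * U + 16 * (f * r * s) - c * W =
          -(a * (u ^ 2 - U)) - 16 * f * (n * z ^ 2 - r * s) + c * (w ^ 2 - W) := by
        linear_combination e13
      rw [this]
      exact dvd_add (dvd_sub ((dU.mul_left a).neg_right) (ds.mul_left _)) (dW.mul_left c)
    · rw [Bool.not_eq_true', ← Bool.not_eq_true]
      intro h
      simp only [Bool.and_eq_true, beq_iff_eq] at h
      exact pr ⟨ls h.2, lU h.1.1.1, lV h.1.1.2, lW h.1.2⟩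

theorem k32 : ∀ t < 32, ((S32.any fun U => ((t : ℕ) ^ 2 % 32 : ℕ) == U) &&
    (!((((t : ℕ) ^ 2 % 32 : ℕ) : ℤ) % 2 == 0) || t % 2 == 0)) = true := by
  decide +kernel

theorem k9 : ∀ t < 9, ((S9.any fun U => ((t : ℕ) ^ 2 % 9 : ℕ) == U) &&
    (!((((t : ℕ) ^ 2 % 9 : ℕ) : ℤ) % 3 == 0) || t % 3 == 0)) = true := by
  decide +kernel

theorem k25 : ∀ t < 25, ((S25.any fun U => ((t : ℕ) ^ 2 % 25 : ℕ) == U) &&
    (!((((t : ℕ) ^ 2 % 25 : ℕ) : ℤ) % 5 == 0) || t % 5 == 0)) = true := by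
  decide +kernel

/-- squares modulo `M` -/
lemma sq_gen {S : List ℤ} {M l : ℕ} (hM : 0 < M) (hl : l ∣ M)
    (k : ∀ t < M, ((S.any fun U => ((t : ℕ) ^ 2 % M : ℕ) == U) &&
      (!((((t : ℕ) ^ 2 % M : ℕ) : ℤ) % l == 0) || t % l == 0)) = true) (u : ℤ) :
    ∃ U ∈ S, (M : ℤ) ∣ u ^ 2 - U ∧ (U % (l : ℤ) = 0 → (l : ℤ) ∣ u) := by
  have hM' : (0 : ℤ) < M := by exact_mod_cast hM
  obtain ⟨t, ht⟩ : ∃ t : ℕ, (t : ℤ) = u % M := ⟨(u % M).toNat, Int.toNat_of_nonneg (Int.emod_nonneg _ hM'.ne')⟩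
  have htM : t < M := by
    have : (t : ℤ) < M := by rw [ht]; exact Int.emod_lt_of_pos _ hM'
    exact_mod_cast this
  have h := k t htM
  rw [Bool.and_eq_true, List.any_eq_true] at h
  obtain ⟨⟨U, hU, h1⟩, h2⟩ := h
  rw [beq_iff_eq] at h1
  have hdt : (M : ℤ) ∣ u - t := by rw [ht]; exact Int.dvd_self_sub_emod
  refine ⟨U, hU, ?_, ?_⟩
  · rw [← h1]
    have e : (u ^ 2 - ((t ^ 2 % M : ℕ) : ℤ)) = (u - t) * (u + t) + ((t : ℤ) ^ 2 - ((t ^ 2 % M : ℕ) : ℤ)) := by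
      ring
    rw [e]
    refine dvd_add (hdt.mul_right _) ?_
    push_cast
    exact Int.dvd_self_sub_emod
  · intro h3
    rw [← h1] at h3
    rw [Bool.or_eq_true, Bool.not_eq_true', beq_iff_eq, beq_eq_false_iff_ne] at h2
    rcases h2 with h2 | h2
    · exact absurd h3 h2
    · have h4 : (l : ℤ) ∣ t := by exact_mod_cast Nat.dvd_of_mod_eq_zero h2
      have h5 : (l : ℤ) ∣ u - t := (Int.natCast_dvd_natCast.2 hl).trans hdt
      have : u = (u - t) + t := by ring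
      rw [this]
      exact dvd_add h5 h4

theorem t32 : ∀ m : ℕ, m < 32 → ((m % 2 == 0) || (S32.all fun s' => S32.any fun s =>
    (((m : ℤ) * s' - ((m % 8 : ℕ) : ℤ) * s) % 32 == 0) && (!(s % 2 == 0) || (s' % 2 == 0)))) = true := by
  decide +kernel

theorem t9 : ∀ m : ℕ, m < 9 → ((m % 3 == 0) || (S9.all fun s' => S9.any fun s =>
    (((m : ℤ) * s' - ((m % 3 : ℕ) : ℤ) * s) % 9 == 0) && (!(s % 3 == 0) || (s' % 3 == 0)))) = true := by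
  decide +kernel

theorem t25 : ∀ m : ℕ, m < 25 → ((m % 5 == 0) || (S25.all fun s' => S25.any fun s =>
    (((m : ℤ) * s' - ((if m % 5 = 1 ∨ m % 5 = 4 then 1 else 2 : ℕ) : ℤ) * s) % 25 == 0) &&
      (!(s % 5 == 0) || (s' % 5 == 0)))) = true := by
  decide +kernel

lemma tw_gen {S : List ℤ} {M l : ℕ} (n : ℕ) (r : ℤ)
    (hsq : ∀ u : ℤ, ∃ U ∈ S, (M : ℤ) ∣ u ^ 2 - U ∧ (U % (l : ℤ) = 0 → (l : ℤ) ∣ u))
    (k : (S.all fun s' => S.any fun s =>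
      ((((n % M : ℕ) : ℤ) * s' - r * s) % M == 0) && (!(s % (l : ℤ) == 0) || (s' % (l : ℤ) == 0))) = true) (z : ℤ) :
    ∃ s ∈ S, (M : ℤ) ∣ n * z ^ 2 - r * s ∧ (s % (l : ℤ) = 0 → (l : ℤ) ∣ z) := by
  obtain ⟨U, hU, dU, lU⟩ := hsq z
  rw [List.all_eq_true] at k
  have h := k U hU
  rw [List.any_eq_true] at h
  obtain ⟨s, hs, h⟩ := h
  rw [Bool.and_eq_true, beq_iff_eq, Bool.or_eq_true, Bool.not_eq_true', beq_iff_eq,
    beq_eq_false_iff_ne] at h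
  refine ⟨s, hs, ?_, ?_⟩
  · have h1 : (M : ℤ) ∣ ((n % M : ℕ) : ℤ) * U - r * s := Int.dvd_of_emod_eq_zero h.1
    have h2 : (M : ℤ) ∣ (n : ℤ) - ((n % M : ℕ) : ℤ) := by
      push_cast
      exact Int.dvd_self_sub_emod
    have e : (n : ℤ) * z ^ 2 - r * s = ((n : ℤ) - ((n % M : ℕ) : ℤ)) * z ^ 2 +
        ((n % M : ℕ) : ℤ) * (z ^ 2 - U) + (((n % M : ℕ) : ℤ) * U - r * s) := by ring
    rw [e]
    exact dvd_add (dvd_add (h2.mul_right _) (dU.mul_left _)) h1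
  · intro h3
    rcases h.2 with h4 | h4
    · exact absurd h3 h4
    · exact lU h4

lemma sq32 (u : ℤ) : ∃ U ∈ S32, (32 : ℤ) ∣ u ^ 2 - U ∧ (U % 2 = 0 → (2 : ℤ) ∣ u) :=
  sq_gen (M := 32) (l := 2) (by norm_num) (by norm_num) k32 u

lemma sq9 (u : ℤ) : ∃ U ∈ S9, (9 : ℤ) ∣ u ^ 2 - U ∧ (U % 3 = 0 → (3 : ℤ) ∣ u) :=
  sq_gen (M := 9) (l := 3) (by norm_num) (by norm_num) k9 u

lemma sq25 (u : ℤ) : ∃ U ∈ S25, (25 : ℤ) ∣ u ^ 2 - U ∧ (U % 5 = 0 → (5 : ℤ) ∣ u) :=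
  sq_gen (M := 25) (l := 5) (by norm_num) (by norm_num) k25 u

lemma tw32 (n : ℕ) (hn : n % 2 ≠ 0) (z : ℤ) :
    ∃ s ∈ S32, (32 : ℤ) ∣ n * z ^ 2 - ((n % 8 : ℕ) : ℤ) * s ∧ (s % 2 = 0 → (2 : ℤ) ∣ z) := by
  have h := t32 (n % 32) (Nat.mod_lt _ (by norm_num))
  have e2 : (n % 32) % 2 = n % 2 := by omega
  have e8 : (n % 32) % 8 = n % 8 := by omega
  rw [e2, e8] at h
  have h' : (n % 2 == 0) = false := by rw [beq_eq_false_iff_ne]; exact hn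
  rw [h', Bool.false_or] at h
  exact tw_gen (M := 32) (l := 2) n _ sq32 h z

lemma tw9 (n : ℕ) (hn : n % 3 ≠ 0) (z : ℤ) :
    ∃ s ∈ S9, (9 : ℤ) ∣ n * z ^ 2 - ((n % 3 : ℕ) : ℤ) * s ∧ (s % 3 = 0 → (3 : ℤ) ∣ z) := by
  have h := t9 (n % 9) (Nat.mod_lt _ (by norm_num))
  have e2 : (n % 9) % 3 = n % 3 := by omega
  rw [e2] at h
  have h' : (n % 3 == 0) = false := by rw [beq_eq_false_iff_ne]; exact hn
  rw [h', Bool.false_or] at h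
  exact tw_gen (M := 9) (l := 3) n _ sq9 h z

/-- `1` for `± 1` modulo `5`, otherwise `2` -/
def c5 (n : ℕ) : ℕ := if n % 5 = 1 ∨ n % 5 = 4 then 1 else 2

lemma tw25 (n : ℕ) (hn : n % 5 ≠ 0) (z : ℤ) :
    ∃ s ∈ S25, (25 : ℤ) ∣ n * z ^ 2 - ((c5 n : ℕ) : ℤ) * s ∧ (s % 5 = 0 → (5 : ℤ) ∣ z) := by
  have h := t25 (n % 25) (Nat.mod_lt _ (by norm_num))
  have e2 : (n % 25) % 5 = n % 5 := by omega
  rw [e2] at h
  have h' : (n % 5 == 0) = false := by rw [beq_eq_false_iff_ne]; exact hn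
  rw [h', Bool.false_or] at h
  exact tw_gen (M := 25) (l := 5) n _ sq25 h z

end Pool.Agent.V7H37.XE
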