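import Mathlib
import Pool.Agent.V7H37.XE.Loc

/-! The quadratic characters of `-1, 2, 3, 5` modulo `p`. -/

set_option autoImplicit false

namespace Pool.Agent.V7H37.XE

/-- sign -/
def sg (b : Bool) : ℤ := if b then -1 else 1

lemma v3 (a : ℕ) (h : a = 1 ∨ a = 2) : @legendreSym 3 ⟨Nat.prime_three⟩ (a : ℤ) = sg (a == 2) := by
  rcases h with rfl | rfl <;> decide

lemma v5 (a : ℕ) (h : a = 1 ∨ a = 2 ∨ a = 3 ∨ a = 4) :
    @legendreSym 5 ⟨Nat.prime_five⟩ (a : ℤ) = sg ((if a = 1 ∨ a = 4 then 1 else 2) == 2) := by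
  rcases h with rfl | rfl | rfl | rfl <;> decide

section

variable {p : ℕ} [hp : Fact p.Prime]

lemma leg0 (h5 : 5 < p) : legendreSym p (-1) = sg (p % 8 % 4 == 3) := by
  rw [legendreSym.at_neg_one (by omega), ZMod.χ₄_nat_eq_if_mod_four]
  have hodd : p % 2 = 1 := by
    rcases hp.out.eq_two_or_odd with h | h
    · omega
    · exact h
  have : p % 8 % 4 = p % 4 := by omega
  rw [this]
  unfold sg
  have h4 : p % 4 = 1 ∨ p % 4 = 3 := by omega
  rcases h4 with h4 | h4
  · simp [h4, hodd]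
  · simp [h4, hodd]

lemma leg2 (h5 : 5 < p) : legendreSym p 2 = sg (p % 8 == 3 || p % 8 == 5) := by
  rw [legendreSym.at_two (by omega), ZMod.χ₈_nat_eq_if_mod_eight]
  have hodd : p % 2 = 1 := by
    rcases hp.out.eq_two_or_odd with h | h
    · omega
    · exact h
  unfold sg
  have h4 : p % 8 = 1 ∨ p % 8 = 3 ∨ p % 8 = 5 ∨ p % 8 = 7 := by omega
  rcases h4 with h4 | h4 | h4 | h4 <;> simp [h4, hodd]

lemma dvd_of {q : ℕ} (hq : q.Prime) (h5 : 5 < p) (hq5 : q ≤ 5) : ¬ q ∣ p := by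
  intro h
  have := (Nat.prime_dvd_prime_iff_eq hq hp.out).1 h
  omega

lemma leg3 (h5 : 5 < p) : legendreSym p 3 = sg ((p % 3 == 2) ^^ (p % 8 % 4 == 3)) := by
  have : Fact (Nat.Prime 3) := ⟨Nat.prime_three⟩
  have h3 : ¬ 3 ∣ p := dvd_of Nat.prime_three h5 (by norm_num)
  have hodd : p % 2 = 1 := by
    rcases hp.out.eq_two_or_odd with h | h
    · omega
    · exact h
  have e84 : p % 8 % 4 = p % 4 := by omega
  rw [e84]
  have key : legendreSym 3 (p : ℤ) = sg (p % 3 == 2) := by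
    rw [legendreSym.mod]
    have : (p : ℤ) % ((3 : ℕ) : ℤ) = ((p % 3 : ℕ) : ℤ) := by push_cast; rfl
    rw [this]
    exact v3 (p % 3) (by omega)
  have h4 : p % 4 = 1 ∨ p % 4 = 3 := by omega
  rcases h4 with h4 | h4
  · have := legendreSym.quadratic_reciprocity_one_mod_four (p := p) (q := 3) h4 (by norm_num)
    rw [key] at this
    have e3 : ((3 : ℕ) : ℤ) = 3 := rfl
    rw [e3] at this
    rw [← this, h4]
    simp
  · have := legendreSym.quadratic_reciprocity_three_mod_four (p := p) (q := 3) h4 (by norm_num)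
    rw [key] at this
    have e3 : ((3 : ℕ) : ℤ) = 3 := rfl
    rw [e3] at this
    have h6 : legendreSym p 3 = - sg (p % 3 == 2) := by rw [this]; ring
    rw [h6, h4]
    have h3' : p % 3 = 1 ∨ p % 3 = 2 := by omega
    rcases h3' with h | h <;> rw [h] <;> decide

lemma leg5 (h5 : 5 < p) : legendreSym p 5 = sg (c5 p == 2) := by
  have : Fact (Nat.Prime 5) := ⟨Nat.prime_five⟩
  have h3 : ¬ 5 ∣ p := dvd_of Nat.prime_five h5 (by norm_num)
  have key : legendreSym 5 (p : ℤ) = sg (c5 p == 2) := by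
    rw [legendreSym.mod]
    have : (p : ℤ) % ((5 : ℕ) : ℤ) = ((p % 5 : ℕ) : ℤ) := by push_cast; rfl
    rw [this]
    unfold c5
    exact v5 (p % 5) (by omega)
  have := legendreSym.quadratic_reciprocity_one_mod_four (p := 5) (q := p) (by norm_num) (by omega)
  have e3 : ((5 : ℕ) : ℤ) = 5 := rfl
  rw [e3, key] at this
  exact this

lemma leg_sg (b i : Bool) (a : ℤ) (h : legendreSym p a = sg b) :
    legendreSym p (if i then a else 1) = sg (b && i) := by
  cases i
  · simp [sg]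
  · simpa using h

lemma leg {i x2 x3 x5 : Bool} (h5 : 5 < p) (h : IsSquare ((vl i x2 x3 x5 : ℤ) : ZMod p)) :
    ch (p % 8 % 4 == 3) (p % 8 == 3 || p % 8 == 5) ((p % 3 == 2) ^^ (p % 8 % 4 == 3)) (c5 p == 2)
      i x2 x3 x5 = false := by
  have hne : ((vl i x2 x3 x5 : ℤ) : ZMod p) ≠ 0 := by
    rw [Ne, ZMod.intCast_zmod_eq_zero_iff_dvd]
    intro hd
    have h1 : p ∣ (vl i x2 x3 x5).natAbs := Int.natCast_dvd.1 hd
    have h2 : (vl i x2 x3 x5).natAbs ∣ 30 := by
      cases i <;> cases x2 <;> cases x3 <;> cases x5 <;> decide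
    have h3 : p ∣ 2 * 3 * 5 := (h1.trans h2).trans (by norm_num)
    rcases hp.out.dvd_mul.1 h3 with h4 | h4
    · rcases hp.out.dvd_mul.1 h4 with h6 | h6
      · have := Nat.le_of_dvd (by norm_num) h6; omega
      · have := Nat.le_of_dvd (by norm_num) h6; omega
    · have := Nat.le_of_dvd (by norm_num) h4; omega
  have hL : legendreSym p (vl i x2 x3 x5) = 1 := (legendreSym.eq_one_iff p hne).2 h
  unfold vl at hL
  rw [legendreSym.mul, legendreSym.mul, legendreSym.mul, leg_sg _ _ _ (leg0 h5), leg_sg _ _ _ (leg2 h5),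
    leg_sg _ _ _ (leg3 h5), leg_sg _ _ _ (leg5 h5)] at hL
  unfold ch
  generalize ((p % 8 % 4 == 3) && i) = b0 at *
  generalize ((p % 8 == 3 || p % 8 == 5) && x2) = b2 at *
  generalize ((((p % 3 == 2) ^^ (p % 8 % 4 == 3))) && x3) = b3 at *
  generalize ((c5 p == 2) && x5) = b5 at *
  revert hL
  cases b0 <;> cases b2 <;> cases b3 <;> cases b5 <;> decide

end

end Pool.Agent.V7H37.XE
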