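import Mathlib
import Pool.Agent.V7H37.XE.Leg
import Pool.Agent.V7H16.XF.Exist

/-! The square classes of a rational point on the twist by `-f p Q`. -/

set_option autoImplicit false

namespace Pool.Agent.V7H37.XE

open Pool.Agent.V7H16.XF

lemma mem_bl (b : Bool) : b ∈ bl := by cases b <;> decide

lemma chk_spec {f r8 r3 r5 : ℕ} (h : chk f r8 r3 r5 = true) {i a2 a3 a5 b2 b3 b5 : Bool}
    (ca : ch (r8 % 4 == 3) (r8 == 3 || r8 == 5) ((r3 == 2) ^^ (r8 % 4 == 3)) (r5 == 2) i a2 a3 a5 = false)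
    (cb : ch (r8 % 4 == 3) (r8 == 3 || r8 == 5) ((r3 == 2) ^^ (r8 % 4 == 3)) (r5 == 2) i b2 b3 b5 = false)
    (o9 : okb S9 9 3 (f * r3) (vl i a2 a3 a5) (vl i b2 b3 b5)
      (vl false (a2 ^^ b2) (a3 ^^ b3) (a5 ^^ b5)) = true)
    (o32 : okb S32 32 2 (f * r8) (vl i a2 a3 a5) (vl i b2 b3 b5)
      (vl false (a2 ^^ b2) (a3 ^^ b3) (a5 ^^ b5)) = true)
    (o25 : okb S25 25 5 (f * r5) (vl i a2 a3 a5) (vl i b2 b3 b5)
      (vl false (a2 ^^ b2) (a3 ^^ b3) (a5 ^^ b5)) = true) :
    i = false ∧ (a2 = false ∧ a3 = false ∧ a5 = false) ∧ (b2 = false ∧ b3 = false ∧ b5 = false) := by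
  unfold chk at h
  rw [List.all_eq_true] at h
  have h1 := h i (mem_bl i)
  rw [List.all_eq_true] at h1
  have h2 := h1 a2 (mem_bl a2)
  rw [List.all_eq_true] at h2
  have h3 := h2 a3 (mem_bl a3)
  rw [List.all_eq_true] at h3
  have h4 := h3 a5 (mem_bl a5)
  rw [ca, Bool.false_or, List.all_eq_true] at h4
  have h5 := h4 b2 (mem_bl b2)
  rw [List.all_eq_true] at h5
  have h6 := h5 b3 (mem_bl b3)
  rw [List.all_eq_true] at h6
  have h7 := h6 b5 (mem_bl b5)
  rw [cb, o9, o32, o25] at h7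
  revert h7
  cases i <;> cases a2 <;> cases a3 <;> cases a5 <;> cases b2 <;> cases b3 <;> cases b5 <;> decide

lemma small_shape {n : ℤ} (hn : Squarefree n)
    (h : ∀ l : ℕ, l.Prime → (l : ℤ) ∣ n → l = 2 ∨ l = 3 ∨ l = 5) :
    n = vl (decide (n < 0)) (decide ((2 : ℤ) ∣ n)) (decide ((3 : ℤ) ∣ n)) (decide ((5 : ℤ) ∣ n)) := by
  obtain ⟨ε, A2, A3, A5, m, h0, h2, h3, h5, hm, e⟩ := shape hn (fun l hl hd => by
    rcases h l hl hd with h | h | h
    · exact Or.inl h
    · exact Or.inr (Or.inl h)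
    · exact Or.inr (Or.inr (Or.inl h)))
  have hm1 : m = 1 := by
    by_contra hne
    obtain ⟨l, hl, hlm⟩ := Nat.exists_prime_and_dvd hne
    have hln : (l : ℤ) ∣ n := by
      rw [e]
      exact (Int.natCast_dvd_natCast.2 hlm).mul_left _
    unfold Good at hm
    rcases h l hl hln with rfl | rfl | rfl <;> omega
  rw [hm1] at e
  unfold vl
  have i0 : (if decide (n < 0) = true then (-1 : ℤ) else 1) = ε := by
    rcases h0 with ⟨h, h'⟩ | ⟨h, h'⟩
    · rw [h', if_neg (by rw [decide_eq_true_iff]; omega)]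
    · rw [h', if_pos (by rw [decide_eq_true_iff]; exact h)]
  have i2 : (if decide ((2 : ℤ) ∣ n) = true then (2 : ℤ) else 1) = A2 := by
    rcases h2 with ⟨h, h'⟩ | ⟨h, h'⟩
    · rw [h', if_pos (by rw [decide_eq_true_iff]; exact h)]
    · rw [h', if_neg (by rw [decide_eq_true_iff]; exact h)]
  have i3 : (if decide ((3 : ℤ) ∣ n) = true then (3 : ℤ) else 1) = A3 := by
    rcases h3 with ⟨h, h'⟩ | ⟨h, h'⟩
    · rw [h', if_pos (by rw [decide_eq_true_iff]; exact h)]
    · rw [h', if_neg (by rw [decide_eq_true_iff]; exact h)]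
  have i5 : (if decide ((5 : ℤ) ∣ n) = true then (5 : ℤ) else 1) = A5 := by
    rcases h5 with ⟨h, h'⟩ | ⟨h, h'⟩
    · rw [h', if_pos (by rw [decide_eq_true_iff]; exact h)]
    · rw [h', if_neg (by rw [decide_eq_true_iff]; exact h)]
  rw [i0, i2, i3, i5]
  conv_lhs => rw [e]
  push_cast; ring

/-- the data of a twist -/
structure Dat (f p Q : ℕ) : Prop where
  pp : p.Prime
  p5 : 5 < p
  sQ : Squarefree Q
  gQ : ∀ q : ℕ, q.Prime → q ∣ Q → Good q
  pQ : ¬p ∣ Q
  tab : (f, p % 8, p % 3, c5 p) ∈ Tab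
  red : ∀ a : ℕ, a ∣ Q → a ≠ 1 → ∃ q : ℕ, q.Prime ∧
    ((q ∣ Q / a ∧ ¬IsSquare ((a : ℕ) : ZMod q)) ∨
      (q ∣ a ∧ ¬IsSquare ((f * (p * Q) / a : ℕ) : ZMod q)))

lemma tab_dvd : ∀ t ∈ Tab, t.1 ∣ 30 := by decide

lemma Dat.f30 {f p Q : ℕ} (H : Dat f p Q) : f ∣ 30 := tab_dvd _ H.tab

lemma prime30 {l : ℕ} (hl : l.Prime) (h : l ∣ 30) : l = 2 ∨ l = 3 ∨ l = 5 := by
  have h30 : l ∣ 2 * 3 * 5 := by simpa using h
  rcases hl.dvd_mul.1 h30 with h4 | h4
  · rcases hl.dvd_mul.1 h4 with h5 | h5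
    · exact Or.inl ((Nat.prime_dvd_prime_iff_eq hl Nat.prime_two).1 h5)
    · exact Or.inr (Or.inl ((Nat.prime_dvd_prime_iff_eq hl Nat.prime_three).1 h5))
  · exact Or.inr (Or.inr ((Nat.prime_dvd_prime_iff_eq hl Nat.prime_five).1 h4))

lemma good_ne {q : ℕ} (hg : Good q) : q ≠ 2 ∧ q ≠ 3 ∧ q ≠ 5 := by
  unfold Good at hg; omega

lemma good_not30 {q : ℕ} (hq : q.Prime) (hg : Good q) : ¬q ∣ 30 := by
  intro h
  have h1 := prime30 hq h
  have h2 := good_ne hg
  omega

lemma Dat.sf {f p Q : ℕ} (H : Dat f p Q) : Squarefree (f * (p * Q)) := by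
  have s30 : Squarefree 30 := by
    rw [show 30 = 2 * 3 * 5 by norm_num]
    rw [Nat.squarefree_mul (by norm_num), Nat.squarefree_mul (by norm_num)]
    exact ⟨⟨Nat.prime_two.prime.irreducible.squarefree, Nat.prime_three.prime.irreducible.squarefree⟩,
      Nat.prime_five.prime.irreducible.squarefree⟩
  have sf := s30.squarefree_of_dvd H.f30
  have c1 : Nat.Coprime p Q := (Nat.Prime.coprime_iff_not_dvd H.pp).2 H.pQ
  have c2 : Nat.Coprime f (p * Q) := by
    apply Nat.coprime_of_dvd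
    intro l hl h1 h2
    have h3 := prime30 hl (h1.trans H.f30)
    rcases hl.dvd_mul.1 h2 with h4 | h4
    · have := (Nat.prime_dvd_prime_iff_eq hl H.pp).1 h4
      have := H.p5
      omega
    · have := good_ne (H.gQ l hl h4)
      omega
  rw [Nat.squarefree_mul c2, Nat.squarefree_mul c1]
  exact ⟨sf, H.pp.prime.irreducible.squarefree, H.sQ⟩

/-- the part prime to `30` of a class is trivial -/
lemma red_one {f p Q : ℕ} (H : Dat f p Q) {a : ℤ} (ha : Squarefree a)
    (hs : ∀ l : ℕ, l.Prime → (l : ℤ) ∣ a → l ∣ 30 ∨ l ∣ Q)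
    (lc : ∀ q : ℕ, q.Prime → q ∣ Q → (¬(q : ℤ) ∣ a → IsSquare (a : ZMod q)) ∧
      (∀ y δ : ℤ, a = q * y → ((f * (p * Q) : ℕ) : ℤ) = q * δ → IsSquare ((y * δ : ℤ) : ZMod q))) :
    ∀ l : ℕ, l.Prime → (l : ℤ) ∣ a → l = 2 ∨ l = 3 ∨ l = 5 := by
  obtain ⟨ε, A2, A3, A5, m, h0, h2, h3, h5, hm, e⟩ := shape ha (fun l hl hd => by
    rcases hs l hl hd with h | h
    · rcases prime30 hl h with h | h | h
      · exact Or.inl h
      · exact Or.inr (Or.inl h)
      · exact Or.inr (Or.inr (Or.inl h))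
    · exact Or.inr (Or.inr (Or.inr (H.gQ l hl h))))
  obtain ⟨α, hα⟩ : ∃ α, α = ε * A2 * A3 * A5 := ⟨_, rfl⟩
  rw [← hα] at e
  have hα30 : α ∣ 30 := by
    have e0 : ε = 1 ∨ ε = -1 := by
      rcases h0 with h | h
      · exact Or.inl h.2
      · exact Or.inr h.2
    have e2 : A2 = 2 ∨ A2 = 1 := by
      rcases h2 with h | h
      · exact Or.inl h.2
      · exact Or.inr h.2
    have e3 : A3 = 3 ∨ A3 = 1 := by
      rcases h3 with h | h
      · exact Or.inl h.2
      · exact Or.inr h.2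
    have e5 : A5 = 5 ∨ A5 = 1 := by
      rcases h5 with h | h
      · exact Or.inl h.2
      · exact Or.inr h.2
    rw [hα]
    rcases e0 with rfl | rfl <;> rcases e2 with rfl | rfl <;> rcases e3 with rfl | rfl <;>
      rcases e5 with rfl | rfl <;> decide
  have αp : ∀ l : ℕ, l.Prime → (l : ℤ) ∣ α → l ∣ 30 := by
    intro l hl h
    exact_mod_cast h.trans hα30
  have hma : (m : ℤ) ∣ a := ⟨α, by rw [e]; ring⟩
  have sm : Squarefree m := Int.squarefree_natCast.1 (ha.squarefree_of_dvd hma)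
  have mp : ∀ l : ℕ, l.Prime → l ∣ m → l ∣ Q := by
    intro l hl h
    rcases hs l hl ((Int.natCast_dvd_natCast.2 h).trans hma) with h1 | h1
    · exfalso
      unfold Good at hm
      rcases prime30 hl h1 with rfl | rfl | rfl <;> omega
    · exact h1
  have hm1 : m = 1 := by
    by_contra hne
    have hmQ : m ∣ Q := by
      rw [← Nat.factorization_le_iff_dvd sm.ne_zero H.sQ.ne_zero]
      intro l
      by_cases hl : l.Prime
      · by_cases hla : l ∣ m
        · have h1 : m.factorization l ≤ 1 := sm.natFactorization_le_one l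
          have h2 : 1 ≤ Q.factorization l :=
            (hl.dvd_iff_one_le_factorization H.sQ.ne_zero).1 (mp l hl hla)
          omega
        · rw [Nat.factorization_eq_zero_of_not_dvd hla]
          exact Nat.zero_le _
      · rw [Nat.factorization_eq_zero_of_not_prime _ hl]
        exact Nat.zero_le _
    obtain ⟨q, hq, hh⟩ := H.red m hmQ hne
    have : Fact q.Prime := ⟨hq⟩
    have hα0 : α ≠ 0 := by
      rintro rfl
      rw [zero_mul] at e
      exact ha.ne_zero e
    -- `α` is a square modulo `q`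
    have αsq : ∀ (_ : Good q), IsSquare (α : ZMod q) := by
      intro hg
      apply sq_of_primes (good_neg_one hq hg) α hα0
      intro l hl hlα
      exact small_sq hq hg (prime30 hl (αp l hl hlα))
    have αne : ∀ (_ : Good q), ((α : ℤ) : ZMod q) ≠ 0 := by
      intro hg
      rw [Ne, ZMod.intCast_zmod_eq_zero_iff_dvd]
      intro h
      exact good_not30 hq hg (αp q hq h)
    obtain ⟨k, hk⟩ := hmQ
    have hm0 : 0 < m := Nat.pos_of_ne_zero sm.ne_zero
    have hQm : Q / m = k := by rw [hk]; exact Nat.mul_div_cancel_left k hm0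
    have hdm : f * (p * Q) / m = f * (p * k) := by
      rw [hk, show f * (p * (m * k)) = m * (f * (p * k)) by ring]
      exact Nat.mul_div_cancel_left _ hm0
    rw [hQm, hdm] at hh
    rcases hh with ⟨h1, h2⟩ | ⟨h1, h2⟩
    · have hqQ : q ∣ Q := by rw [hk]; exact h1.mul_left _
      have hg := H.gQ q hq hqQ
      have hqm : ¬q ∣ m := by
        intro h3
        have : q * q ∣ Q := by rw [hk]; exact mul_dvd_mul h3 h1
        exact hq.prime.not_isUnit (H.sQ q this)
      have hqa : ¬(q : ℤ) ∣ a := by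
        rw [e]
        intro h3
        rcases (Nat.prime_iff_prime_int.1 hq).dvd_or_dvd h3 with h4 | h4
        · exact good_not30 hq hg (αp q hq h4)
        · exact hqm (by exact_mod_cast h4)
      have h3 := (lc q hq hqQ).1 hqa
      apply h2
      have h4 : IsSquare (((m : ℕ) : ZMod q) * (α : ZMod q)) := by
        rw [e] at h3
        push_cast at h3
        rw [mul_comm]
        exact h3
      exact sq_cancel hq h4 (αsq hg) (αne hg)
    · have hqQ : q ∣ Q := by rw [hk]; exact h1.mul_right _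
      have hg := H.gQ q hq hqQ
      obtain ⟨y, hy⟩ := h1
      have hy0 : ((y : ℕ) : ZMod q) ≠ 0 := by
        rw [Ne, ZMod.natCast_eq_zero_iff]
        intro h3
        have : q * q ∣ m := by rw [hy]; exact mul_dvd_mul_left q h3
        exact hq.prime.not_isUnit (sm q this)
      have h3 := (lc q hq hqQ).2 (α * y) (f * (p * (y * k))) (by rw [e, hy]; push_cast; ring)
        (by rw [hk, hy]; push_cast; ring)
      apply h2
      have h4 : IsSquare ((((f * (p * k) : ℕ) : ZMod q) * (((y : ℕ) : ZMod q) * ((y : ℕ) : ZMod q))) *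
          (α : ZMod q)) := by
        have e' : (((f * (p * k) : ℕ) : ZMod q) * (((y : ℕ) : ZMod q) * ((y : ℕ) : ZMod q))) *
          (α : ZMod q) = (((α * y) * (f * (p * (y * k))) : ℤ) : ZMod q) := by push_cast; ring
        rw [e']
        exact h3
      have h5 := sq_cancel hq h4 (αsq hg) (αne hg)
      exact sq_cancel hq h5 ⟨_, rfl⟩ (mul_ne_zero hy0 hy0)
  intro l hl hla
  rw [e, hm1] at hla
  push_cast at hla
  rw [mul_one] at hla
  exact prime30 hl (αp l hl hla)

end Pool.Agent.V7H37.XE
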