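import Mathlib
import Pool.Agent.V7H37.XE.Main

/-! The square classes of a rational point on the twist by `-f p Q`: conclusion. -/

set_option autoImplicit false

namespace Pool.Agent.V7H37.XE

open Pool.Agent.V7H16.XF

lemma chk_mem {f r8 r3 r5 : ℕ} (h : (f, r8, r3, r5) ∈ Tab) : chk f r8 r3 r5 = true := by
  have h1 := List.all_eq_true.1 chk_all (f, r8, r3, r5) h
  have h2 : chk (f, r8, r3, r5).1 (f, r8, r3, r5).2.1 (f, r8, r3, r5).2.2.1 (f, r8, r3, r5).2.2.2 = true := h1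
  dsimp only at h2
  exact h2

/-- a quadruple whose classes are supported at `2, 3, 5` is trivial -/
lemma final {f p Q : ℕ} (H : Dat f p Q) {a b c s u v w z : ℤ}
    (QQ : Quad (-9 * ((f * (p * Q) : ℕ) : ℤ)) (16 * ((f * (p * Q) : ℕ) : ℤ)) a b c s u v w z)
    (hc0 : 0 < c) (hab0 : 0 < a * b)
    (ga : ∀ l : ℕ, l.Prime → (l : ℤ) ∣ a → l = 2 ∨ l = 3 ∨ l = 5)
    (gb : ∀ l : ℕ, l.Prime → (l : ℤ) ∣ b → l = 2 ∨ l = 3 ∨ l = 5)
    (sa : IsSquare (a : ZMod p)) (sb : IsSquare (b : ZMod p)) : a = 1 ∧ b = 1 ∧ c = 1 := by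
  have : Fact p.Prime := ⟨H.pp⟩
  have gc : ∀ l : ℕ, l.Prime → (l : ℤ) ∣ c → l = 2 ∨ l = 3 ∨ l = 5 := by
    intro l hl h
    have hp := par QQ.ha QQ.hb QQ.hc QQ.hs hl
    by_cases h1 : (l : ℤ) ∣ a
    · exact ga l hl h1
    · exact gb l hl ((hp.2 h1).2 h)
  have ea := small_shape QQ.ha ga
  have eb := small_shape QQ.hb gb
  have ec := small_shape QQ.hc gc
  have hsgn : decide (b < 0) = decide (a < 0) := by
    rw [decide_eq_decide]
    constructor
    · intro h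
      by_contra h1
      push Not at h1
      have := mul_nonpos_of_nonneg_of_nonpos h1 h.le
      omega
    · intro h
      by_contra h1
      push Not at h1
      have := mul_nonpos_of_nonpos_of_nonneg h.le h1
      omega
  have hsc : decide (c < 0) = false := by
    rw [decide_eq_false_iff_not]; omega
  have hx : ∀ l : ℕ, l.Prime → decide ((l : ℤ) ∣ c) = (decide ((l : ℤ) ∣ a) ^^ decide ((l : ℤ) ∣ b)) := by
    intro l hl
    have hp := par QQ.ha QQ.hb QQ.hc QQ.hs hl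
    by_cases h1 : (l : ℤ) ∣ a
    · rcases hp.1 h1 with ⟨h2, h3⟩ | ⟨h2, h3⟩
      · simp [h1, h2, h3]
      · simp [h1, h2, h3]
    · have h2 := hp.2 h1
      by_cases h3 : (l : ℤ) ∣ b
      · simp [h1, h3, h2.1 h3]
      · have h4 : ¬(l : ℤ) ∣ c := fun h => h3 (h2.2 h)
        simp [h1, h3, h4]
  have x2 := hx 2 Nat.prime_two
  have x3 := hx 3 Nat.prime_three
  have x5 := hx 5 Nat.prime_five
  push_cast at x2 x3 x5
  rw [hsgn] at eb
  rw [hsc, x2, x3, x5] at ec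
  generalize decide (a < 0) = i at ea eb
  generalize decide ((2 : ℤ) ∣ a) = a2 at ea ec
  generalize decide ((3 : ℤ) ∣ a) = a3 at ea ec
  generalize decide ((5 : ℤ) ∣ a) = a5 at ea ec
  generalize decide ((2 : ℤ) ∣ b) = b2 at eb ec
  generalize decide ((3 : ℤ) ∣ b) = b3 at eb ec
  generalize decide ((5 : ℤ) ∣ b) = b5 at eb ec
  -- the table
  have htab : chk f (p % 8) (p % 3) (c5 p) = true := chk_mem H.tab
  -- residues of `n = p Q`
  have hQg : Good Q := good_of_primes Q H.sQ.ne_zero H.gQ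
  have h2p : ¬ 2 ∣ p := dvd_of (p := p) Nat.prime_two H.p5 (by norm_num)
  have h3p : ¬ 3 ∣ p := dvd_of (p := p) Nat.prime_three H.p5 (by norm_num)
  have h5p : ¬ 5 ∣ p := dvd_of (p := p) Nat.prime_five H.p5 (by norm_num)
  have Q8 : Q % 8 = 1 := by unfold Good at hQg; omega
  have Q3 : Q % 3 = 1 := by unfold Good at hQg; omega
  have Q5 : Q % 5 = 1 ∨ Q % 5 = 4 := by unfold Good at hQg; omega
  have n8 : (p * Q) % 8 = p % 8 := by rw [Nat.mul_mod, Q8]; simp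
  have n3 : (p * Q) % 3 = p % 3 := by rw [Nat.mul_mod, Q3]; simp
  have n5 : c5 (p * Q) = c5 p := by
    unfold c5
    rw [Nat.mul_mod]
    have : p % 5 = 1 ∨ p % 5 = 2 ∨ p % 5 = 3 ∨ p % 5 = 4 := by omega
    rcases this with h | h | h | h <;> rcases Q5 with h' | h' <;> rw [h, h'] <;> decide
  have m5 : (p * Q) % 5 ≠ 0 := by
    rw [Nat.mul_mod]
    have : p % 5 = 1 ∨ p % 5 = 2 ∨ p % 5 = 3 ∨ p % 5 = 4 := by omega
    rcases this with h | h | h | h <;> rcases Q5 with h' | h' <;> rw [h, h'] <;> decide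
  have e12 : a * u ^ 2 + -9 * ((f : ℤ) * ((p * Q : ℕ) : ℤ)) * z ^ 2 = b * v ^ 2 := by
    have := QQ.e12
    push_cast at this ⊢
    linear_combination this
  have e13 : a * u ^ 2 + 16 * ((f : ℤ) * ((p * Q : ℕ) : ℤ)) * z ^ 2 = c * w ^ 2 := by
    have := QQ.e13
    push_cast at this ⊢
    linear_combination this
  have o9 := ok_of (S := S9) (M := 9) (l := 3) sq9 (tw9 (p * Q) (by rw [n3]; omega)) e12 e13
    (by have := QQ.pr 3 Nat.prime_three; exact_mod_cast this)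
  have o32 := ok_of (S := S32) (M := 32) (l := 2) sq32 (tw32 (p * Q) (by omega)) e12 e13
    (by have := QQ.pr 2 Nat.prime_two; exact_mod_cast this)
  have o25 := ok_of (S := S25) (M := 25) (l := 5) sq25 (tw25 (p * Q) m5) e12 e13
    (by have := QQ.pr 5 Nat.prime_five; exact_mod_cast this)
  rw [n3] at o9
  rw [n8] at o32
  rw [n5] at o25
  subst ea eb ec
  have := chk_spec htab (leg H.p5 sa) (leg H.p5 sb) o9 o32 o25
  obtain ⟨hi, ⟨h1, h2, h3⟩, ⟨h4, h5, h6⟩⟩ := this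
  subst hi h1 h2 h3 h4 h5 h6
  exact ⟨by decide, by decide, by decide⟩

theorem squares {f p Q : ℕ} (H : Dat f p Q) {x y : ℚ} (hy : y ≠ 0)
    (h : y ^ 2 = x * (x + (-9 * ((f * (p * Q) : ℕ) : ℤ) : ℤ)) * (x + (16 * ((f * (p * Q) : ℕ) : ℤ) : ℤ)))
    (v1 : Even (padicValRat p x)) (v2 : Even (padicValRat p (x + (-9 * ((f * (p * Q) : ℕ) : ℤ) : ℤ)))) :
    ∃ r1 r2 r3 : ℚ, x = r1 ^ 2 ∧ x + (-9 * ((f * (p * Q) : ℕ) : ℤ) : ℤ) = r2 ^ 2 ∧
      x + (16 * ((f * (p * Q) : ℕ) : ℤ) : ℤ) = r3 ^ 2 := by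
  have hsf := H.sf
  have hpd : p ∣ f * (p * Q) := ⟨f * Q, by ring⟩
  have hQd : Q ∣ f * (p * Q) := ⟨f * p, by ring⟩
  have hdd : ∀ l : ℕ, l.Prime → l ∣ f * (p * Q) → l ∣ 30 ∨ l = p ∨ l ∣ Q := by
    intro l hl hd
    rcases hl.dvd_mul.1 hd with h1 | h1
    · exact Or.inl (h1.trans H.f30)
    · rcases hl.dvd_mul.1 h1 with h2 | h2
      · exact Or.inr (Or.inl ((Nat.prime_dvd_prime_iff_eq hl H.pp).1 h2))
      · exact Or.inr (Or.inr h2)
  have hlcd : ∀ {a : ℤ} {q : ℕ}, (∀ y δ : ℤ, a = q * y → ((f * (p * Q) : ℕ) : ℤ) = q * δ →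
      IsSquare ((y * δ : ℤ) : ZMod q)) → (∀ y δ : ℤ, a = q * y → ((f * (p * Q) : ℕ) : ℤ) = q * δ →
      IsSquare ((y * δ : ℤ) : ZMod q)) := fun h => h
  have hfin := @final f p Q H
  have hred := @red_one f p Q H
  obtain ⟨d, hd⟩ : ∃ d, d = f * (p * Q) := ⟨_, rfl⟩
  rw [← hd] at h v2 hsf hpd hQd hdd ⊢ hfin hred
  have hp0 : x * (x + (-9 * d : ℤ)) * (x + (16 * d : ℤ)) ≠ 0 := by
    rw [← h]
    exact pow_ne_zero 2 hy
  have n1 : x ≠ 0 := fun h0 => hp0 (by rw [h0]; ring)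
  have n2 : x + (-9 * d : ℤ) ≠ 0 := fun h0 => hp0 (by rw [h0]; ring)
  have n3 : x + (16 * d : ℤ) ≠ 0 := fun h0 => hp0 (by rw [h0]; ring)
  obtain ⟨a, b, c, s, u, v, w, z, QQ, ea, eb, ec⟩ := exists_quad _ _ x y hy h
  have hz : (z : ℚ) ≠ 0 := by exact_mod_cast QQ.z0
  have hd0 : 0 < d := Nat.pos_of_ne_zero hsf.ne_zero
  have hdq : (0 : ℚ) < d := by exact_mod_cast hd0
  have hur : (u : ℚ) / z ≠ 0 := fun h0 => n1 (by rw [ea, h0]; ring)
  have hvr : (v : ℚ) / z ≠ 0 := fun h0 => n2 (by rw [eb, h0]; ring)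
  have hwr : (w : ℚ) / z ≠ 0 := fun h0 => n3 (by rw [ec, h0]; ring)
  have pa : ¬(p : ℤ) ∣ a := even_val H.pp QQ.ha hur (by rw [← ea]; exact v1)
  have pb : ¬(p : ℤ) ∣ b := even_val H.pp QQ.hb hvr (by rw [← eb]; exact v2)
  have pc : ¬(p : ℤ) ∣ c := fun h => pb (((par QQ.ha QQ.hb QQ.hc QQ.hs H.pp).2 pa).2 h)
  -- signs
  have hypos : 0 < x * (x + (-9 * d : ℤ)) * (x + (16 * d : ℤ)) := by
    rw [← h]; positivity
  have x3 : 0 < x + (16 * d : ℤ) := by
    by_contra h3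
    push Not at h3
    have h1 : x < 0 := by push_cast at h3; linarith
    have h2 : x + (-9 * d : ℤ) < 0 := by push_cast; linarith
    have h4 : 0 < x * (x + (-9 * d : ℤ)) := mul_pos_of_neg_of_neg h1 h2
    exact absurd hypos (not_lt.2 (mul_nonpos_of_nonneg_of_nonpos h4.le h3))
  have x12 : 0 < x * (x + (-9 * d : ℤ)) := (mul_pos_iff_of_pos_right x3).1 hypos
  have hc0 : 0 < c := by
    rw [ec] at x3
    have := (mul_pos_iff_of_pos_right (by positivity : (0 : ℚ) < (w / z) ^ 2)).1 x3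
    exact_mod_cast this
  have hab0 : 0 < a * b := by
    rw [ea] at x12
    have e : (a : ℚ) * (u / z) ^ 2 * (a * (u / z) ^ 2 + (-9 * d : ℤ)) =
        ((a : ℚ) * b) * ((u / z) * (v / z)) ^ 2 := by
      rw [← ea, eb]
      conv_lhs => rw [ea]
      ring
    rw [e] at x12
    have := (mul_pos_iff_of_pos_right (by positivity :
      (0 : ℚ) < ((u : ℚ) / z * (v / z)) ^ 2)).1 x12
    exact_mod_cast this
  have hdz : Squarefree (d : ℤ) := Int.squarefree_natCast.2 hsf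
  -- supports
  have supp3 : ∀ l : ℕ, l.Prime → ((l : ℤ) ∣ a ∨ (l : ℤ) ∣ b ∨ (l : ℤ) ∣ c) → l ∣ 30 * d := by
    intro l hl hh
    have hpar := par QQ.ha QQ.hb QQ.hc QQ.hs hl
    obtain ⟨q1, q2, q3⟩ := quad_supp QQ hl
    have fin : ∀ k : ℕ, (∀ r : ℕ, r.Prime → r ∣ k → r ∣ 30) → (l : ℤ) ∣ (k : ℤ) * d → l ∣ 30 * d := by
      intro k hk h1
      have h2 : l ∣ k * d := by exact_mod_cast h1
      rcases hl.dvd_mul.1 h2 with h3 | h3
      · exact (hk l hl h3).mul_right _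
      · exact h3.mul_left _
    have f9 := fin 9 (fun r hr h1 => by
      have : r ∣ 3 := hr.dvd_of_dvd_pow (show r ∣ 3 ^ 2 by simpa using h1)
      exact this.trans (by norm_num))
    have f16 := fin 16 (fun r hr h1 => by
      have : r ∣ 2 := hr.dvd_of_dvd_pow (show r ∣ 2 ^ 4 by simpa using h1)
      exact this.trans (by norm_num))
    have f25 := fin 25 (fun r hr h1 => by
      have : r ∣ 5 := hr.dvd_of_dvd_pow (show r ∣ 5 ^ 2 by simpa using h1)
      exact this.trans (by norm_num))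
    push_cast at f9 f16 f25
    by_cases ha : (l : ℤ) ∣ a
    · rcases hpar.1 ha with h1 | h1
      · exact f9 (q1 ⟨ha, h1.1⟩)
      · exact f16 (q2 ⟨ha, h1.2⟩)
    · have h1 := hpar.2 ha
      rcases hh with h2 | h2 | h2
      · exact absurd h2 ha
      · exact f25 (q3 ⟨h2, h1.1 h2⟩)
      · exact f25 (q3 ⟨h1.2 h2, h2⟩)
  have sup : ∀ {t : ℤ}, (∀ l : ℕ, l.Prime → (l : ℤ) ∣ t → l ∣ 30 * d) → ¬(p : ℤ) ∣ t →
      ∀ l : ℕ, l.Prime → (l : ℤ) ∣ t → l ∣ 30 ∨ l ∣ Q := by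
    intro t ht hpt l hl hlt
    rcases hl.dvd_mul.1 (ht l hl hlt) with h1 | h1
    · exact Or.inl h1
    · rcases hdd l hl h1 with h2 | h2 | h2
      · exact Or.inl h2
      · subst h2
        exact absurd hlt hpt
      · exact Or.inr h2
  have sq9 : ∀ q : ℕ, q.Prime → Good q → IsSquare ((-9 : ℤ) : ZMod q) := by
    intro q hq hg
    obtain ⟨i, hi⟩ := good_neg_one hq hg
    refine ⟨3 * i, ?_⟩
    push_cast
    linear_combination 9 * hi
  have lca : ∀ q : ℕ, q.Prime → q ∣ Q → (¬(q : ℤ) ∣ a → IsSquare (a : ZMod q)) ∧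
      (∀ y δ : ℤ, a = q * y → (d : ℤ) = q * δ → IsSquare ((y * δ : ℤ) : ZMod q)) := by
    intro q hq hqQ
    have hg := H.gQ q hq hqQ
    exact loc_q hq (k2 := -9) (k3 := 16) QQ.hs QQ.ha QQ.hb QQ.hc hdz
      (by exact_mod_cast hqQ.trans hQd) QQ.e12 QQ.e13
      (QQ.pr q hq) (good_neg_one hq hg) (sq9 q hq hg) ⟨4, by push_cast; norm_num⟩
      (by
        intro h9
        rw [dvd_neg] at h9
        exact good_not_dvd hq hg (k := 9) (by norm_num) (by norm_num) (by exact_mod_cast h9))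
      (by
        intro h9
        exact good_not_dvd hq hg (k := 16) (by norm_num) (by norm_num) (by exact_mod_cast h9))
  have hs' : b * a * c = s ^ 2 := by rw [← QQ.hs]; ring
  have e21 : b * v ^ 2 + 9 * (d : ℤ) * z ^ 2 = a * u ^ 2 := by linear_combination -QQ.e12
  have e23 : b * v ^ 2 + 25 * (d : ℤ) * z ^ 2 = c * w ^ 2 := by linear_combination QQ.e13 - QQ.e12
  have lcb : ∀ q : ℕ, q.Prime → q ∣ Q → (¬(q : ℤ) ∣ b → IsSquare (b : ZMod q)) ∧
      (∀ y δ : ℤ, b = q * y → (d : ℤ) = q * δ → IsSquare ((y * δ : ℤ) : ZMod q)) := by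
    intro q hq hqQ
    have hg := H.gQ q hq hqQ
    exact loc_q hq (k2 := 9) (k3 := 25) hs' QQ.hb QQ.ha QQ.hc hdz
      (by exact_mod_cast hqQ.trans hQd) e21 e23
      (fun h => QQ.pr q hq ⟨h.1, h.2.2.1, h.2.1, h.2.2.2⟩) (good_neg_one hq hg)
      ⟨3, by push_cast; norm_num⟩ ⟨5, by push_cast; norm_num⟩
      (by
        intro h9
        exact good_not_dvd hq hg (k := 9) (by norm_num) (by norm_num) (by exact_mod_cast h9))
      (by
        intro h9
        exact good_not_dvd hq hg (k := 25) (by norm_num) (by norm_num) (by exact_mod_cast h9))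
  have ga := hred QQ.ha (sup (fun l hl h => supp3 l hl (Or.inl h)) pa) lca
  have gb := hred QQ.hb (sup (fun l hl h => supp3 l hl (Or.inr (Or.inl h))) pb) lcb
  -- the place `p`
  have np9 : ¬(p : ℤ) ∣ 9 := by
    intro h9
    have h1 : p ∣ 9 := by exact_mod_cast h9
    have h2 : p ∣ 3 := H.pp.dvd_of_dvd_pow (show p ∣ 3 ^ 2 by simpa using h1)
    have := Nat.le_of_dvd (by norm_num) h2
    have := H.p5
    omega
  have sa : IsSquare (a : ZMod p) := loc_unit H.pp (k2 := -9) (k3 := 16) QQ.hs hdz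
    (by exact_mod_cast hpd) QQ.e12 QQ.e13 (QQ.pr p H.pp) (by rw [dvd_neg]; exact np9) pa pb pc
  have sb : IsSquare (b : ZMod p) := loc_unit H.pp (k2 := 9) (k3 := 25) hs' hdz
    (by exact_mod_cast hpd) e21 e23 (fun h => QQ.pr p H.pp ⟨h.1, h.2.2.1, h.2.1, h.2.2.2⟩) np9 pb pa pc
  obtain ⟨ha1, hb1, hc1⟩ := hfin QQ hc0 hab0 ga gb sa sb
  refine ⟨u / z, v / z, w / z, ?_, ?_, ?_⟩
  · rw [ea, ha1]; push_cast; ring
  · rw [eb, hb1]; push_cast; ring
  · rw [ec, hc1]; push_cast; ring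

end Pool.Agent.V7H37.XE
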