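import Mathlib
import Pool.Agent.V7H37.XE.Sqs
import Pool.Agent.V7H16.XF.Fin

/-! Finiteness of the twisted curve over `ℚ` and of `X_0(15)` over the quadratic field (after `V7H16.XF`). -/

set_option autoImplicit false

open WeierstrassCurve

namespace Pool.Agent.V7H37.XE

open Pool.Agent.H437R2.Man.MW Pool.Agent.V7H16.XF

/-- the classes of the points of the twist by `-d` are those of the points of order two -/
structure Tw (d p : ℕ) : Prop where
  sf : Squarefree d
  pp : p.Prime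
  pd : p ∣ d
  sq : ∀ {x y : ℚ}, y ≠ 0 → y ^ 2 = x * (x + (-9 * d : ℤ)) * (x + (16 * d : ℤ)) →
    Even (padicValRat p x) → Even (padicValRat p (x + (-9 * d : ℤ))) →
    ∃ r1 r2 r3 : ℚ, x = r1 ^ 2 ∧ x + (-9 * d : ℤ) = r2 ^ 2 ∧ x + (16 * d : ℤ) = r3 ^ 2

lemma odd_val_d {d p : ℕ} (H : Tw d p) (k : ℤ) (hk : k ≠ 0) (ε : ℤ) (hε : ε = 1 ∨ ε = -1) :
    Odd (padicValRat p ((ε * k ^ 2 * d : ℤ) : ℚ)) := by
  have : Fact p.Prime := ⟨H.pp⟩
  obtain ⟨m, hm⟩ := H.pd
  have hd : Squarefree (d : ℤ) := Int.squarefree_natCast.2 H.sf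
  have hdm : (d : ℤ) = p * (m : ℤ) := by rw [hm]; push_cast; ring
  rw [hdm] at hd
  have hnm := sqf_div H.pp hd
  have hk0 : (k : ℚ) ≠ 0 := by exact_mod_cast hk
  have hm0 : (m : ℚ) ≠ 0 := by
    intro h0
    apply hnm
    have : m = 0 := by exact_mod_cast h0
    rw [this]; exact dvd_zero _
  have hp0 : (p : ℚ) ≠ 0 := by exact_mod_cast H.pp.ne_zero
  have e : padicValRat p ((ε * k ^ 2 * d : ℤ) : ℚ) = padicValRat p ((k : ℚ) ^ 2 * (p * m)) := by
    rcases hε with rfl | rfl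
    · congr 1
      rw [hm]; push_cast; ring
    · rw [← padicValRat.neg]
      congr 1
      rw [hm]; push_cast; ring
  rw [e, padicValRat.mul (pow_ne_zero 2 hk0) (mul_ne_zero hp0 hm0), padicValRat.mul hp0 hm0,
    padicValRat.pow, padicValRat.self H.pp.one_lt]
  have h2 : padicValRat p (m : ℚ) = 0 := by
    have : padicValRat p ((m : ℤ) : ℚ) = 0 := by
      rw [padicValRat.of_int, padicValInt.eq_zero_of_not_dvd hnm]
      simp
    rw [show ((m : ℕ) : ℚ) = ((m : ℤ) : ℚ) by push_cast; rfl]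
    exact this
  rw [h2]
  exact ⟨padicValRat p (k : ℚ), by push_cast; ring⟩

theorem desc_d {d p : ℕ} (H : Tw d p) (P : Pt (0 : ℚ) ((-9 * d : ℤ) : ℚ) ((16 * d : ℤ) : ℚ)) :
    ∃ Q : Pt (0 : ℚ) ((-9 * d : ℤ) : ℚ) ((16 * d : ℤ) : ℚ), (2 : ℤ) • P = (2 * 2 : ℤ) • Q := by
  have hd0 : (0 : ℚ) < d := by exact_mod_cast Nat.pos_of_ne_zero H.sf.ne_zero
  have h12 : (0 : ℚ) ≠ ((-9 * d : ℤ) : ℚ) := by push_cast; intro h; linarith
  have h13 : (0 : ℚ) ≠ ((16 * d : ℤ) : ℚ) := by push_cast; intro h; linarith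
  have h23 : ((-9 * d : ℤ) : ℚ) ≠ ((16 * d : ℤ) : ℚ) := by push_cast; intro h; linarith
  have o12 : Odd (padicValRat p (((-9 * d : ℤ) : ℚ) - 0)) := by
    have := odd_val_d H 3 (by norm_num) (-1) (Or.inr rfl)
    convert this using 2
    push_cast; ring
  have o21 : Odd (padicValRat p (0 - ((-9 * d : ℤ) : ℚ))) := by
    have := odd_val_d H 3 (by norm_num) 1 (Or.inl rfl)
    convert this using 2
    push_cast; ring
  have o13 : Odd (padicValRat p (((16 * d : ℤ) : ℚ) - 0)) := by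
    have := odd_val_d H 4 (by norm_num) 1 (Or.inl rfl)
    convert this using 2
    push_cast; ring
  have o31 : Odd (padicValRat p (0 - ((16 * d : ℤ) : ℚ))) := by
    have := odd_val_d H 4 (by norm_num) (-1) (Or.inr rfl)
    convert this using 2
    push_cast; ring
  have o23 : Odd (padicValRat p (((16 * d : ℤ) : ℚ) - ((-9 * d : ℤ) : ℚ))) := by
    have := odd_val_d H 5 (by norm_num) 1 (Or.inl rfl)
    convert this using 2
    push_cast; ring
  have o32 : Odd (padicValRat p (((-9 * d : ℤ) : ℚ) - ((16 * d : ℤ) : ℚ))) := by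
    have := odd_val_d H 5 (by norm_num) (-1) (Or.inr rfl)
    convert this using 2
    push_cast; ring
  obtain ⟨e2, he2⟩ : ∃ e2, e2 = ((-9 * d : ℤ) : ℚ) := ⟨_, rfl⟩
  obtain ⟨e3, he3⟩ : ∃ e3, e3 = ((16 * d : ℤ) : ℚ) := ⟨_, rfl⟩
  have main : ∀ x' y' : ℚ, y' ≠ 0 → y' ^ 2 = (x' + 0) * (x' + e2) * (x' + e3) →
      (Even (padicValRat p (x' + 0)) ∧ Even (padicValRat p (x' + e2))) →
      ∃ r1 r2 r3 : ℚ, x' + 0 = r1 ^ 2 ∧ x' + e2 = r2 ^ 2 ∧ x' + e3 = r3 ^ 2 := by
    intro x' y' hy' h' hev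
    rw [add_zero] at hev h' ⊢
    rw [he2, he3] at h'
    rw [he2] at hev
    rw [he2, he3]
    exact H.sq hy' h' hev.1 hev.2
  rw [← he2, ← he3] at o23 o32 h23
  rw [← he2] at o12 o21 h12
  rw [← he3] at o13 o31 h13
  revert P
  rw [← he2, ← he3]
  intro P
  match P with
  | 0 => exact ⟨0, by simp⟩
  | .some x y h =>
    have q := crv_eqn.mp h.1
    by_cases hy : y = 0
    · subst hy
      refine ⟨0, ?_⟩
      rw [smul_zero, two_zsmul]
      apply Affine.Point.add_of_Y_eq rfl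
      simp [Affine.negY, crv]
    · have hy2 : (x + 0) * (x + e2) * (x + e3) ≠ 0 := by
        rw [← q]
        exact pow_ne_zero 2 hy
      have n1 : x + 0 ≠ 0 := fun h0 => hy2 (by rw [h0]; ring)
      have n2 : x + e2 ≠ 0 := fun h0 => hy2 (by rw [h0]; ring)
      have n3 : x + e3 ≠ 0 := fun h0 => hy2 (by rw [h0]; ring)
      have hfact : Fact p.Prime := ⟨H.pp⟩
      have hsum : padicValRat p (x + 0) + padicValRat p (x + e2) + padicValRat p (x + e3) =
          2 * padicValRat p y := by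
        rw [← padicValRat.mul n1 n2, ← padicValRat.mul (mul_ne_zero n1 n2) n3, ← q,
          padicValRat.pow]
        push_cast; ring
      rcases Int.even_or_odd (padicValRat p (x + 0)) with v1 | v1 <;>
        rcases Int.even_or_odd (padicValRat p (x + e2)) with v2 | v2
      · obtain ⟨r1, r2, r3, k1, k2, k3⟩ := main x y hy q ⟨v1, v2⟩
        obtain ⟨Q, hQ⟩ := half_of rfl h12 h13 h23 k1 k2 k3 h
        exact ⟨Q, smul_helper (P' := 0) (by simp) (by rw [hQ, add_zero])⟩
      · have v3 : Odd (padicValRat p (x + e3)) := by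
          rw [Int.odd_iff] at v2 ⊢
          rw [Int.even_iff] at v1
          omega
        obtain ⟨P', Q, k1, k2⟩ := step (f1 := 0) (f2 := e2) (f3 := e3) rfl h12 h13 h23
          (fun X => Even (padicValRat p (X + 0)) ∧ Even (padicValRat p (X + e2))) main h hy
          (fun X g1 g2 g3 => by
            have := trans_even H.pp n1 n2 n3 o12 o13 v1 v2 v3 g1 g2 g3
            exact ⟨this.1, this.2.1⟩)
        exact ⟨Q, smul_helper k1 k2⟩
      · have v3 : Odd (padicValRat p (x + e3)) := by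
          rw [Int.odd_iff] at v1 ⊢
          rw [Int.even_iff] at v2
          omega
        obtain ⟨P', Q, k1, k2⟩ := step (f1 := e2) (f2 := 0) (f3 := e3) (crv_swap12 _ _ _)
          h12.symm h23 h13
          (fun X => Even (padicValRat p (X + 0)) ∧ Even (padicValRat p (X + e2)))
          (fun x' y' hy' h' hev => by
            obtain ⟨r1, r2, r3, k1, k2, k3⟩ := main x' y' hy' (by rw [h']; ring) hev
            exact ⟨r2, r1, r3, k2, k1, k3⟩) h hy
          (fun X g1 g2 g3 => by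
            have := trans_even H.pp n2 n1 n3 o21 o23 v2 v1 v3 g1 g2 g3
            exact ⟨this.2.1, this.1⟩)
        exact ⟨Q, smul_helper k1 k2⟩
      · have v3 : Even (padicValRat p (x + e3)) := by
          rw [Int.odd_iff] at v1 v2
          rw [Int.even_iff]
          omega
        obtain ⟨P', Q, k1, k2⟩ := step (f1 := e3) (f2 := e2) (f3 := 0) (crv_swap13 _ _ _)
          h23.symm h13.symm h12.symm
          (fun X => Even (padicValRat p (X + 0)) ∧ Even (padicValRat p (X + e2)))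
          (fun x' y' hy' h' hev => by
            obtain ⟨r1, r2, r3, k1, k2, k3⟩ := main x' y' hy' (by rw [h']; ring) hev
            exact ⟨r3, r2, r1, k3, k2, k1⟩) h hy
          (fun X g1 g2 g3 => by
            have := trans_even H.pp n3 n2 n1 o32 o31 v3 v2 v1 g1 g2 g3
            exact ⟨this.2.2, this.2.1⟩)
        exact ⟨Q, smul_helper k1 k2⟩

theorem finite_d {d p : ℕ} (H : Tw d p) :
    Finite (Pt (0 : ℚ) ((-9 * d : ℤ) : ℚ) ((16 * d : ℤ) : ℚ)) := by
  have hd0 : (0 : ℚ) < d := by exact_mod_cast Nat.pos_of_ne_zero H.sf.ne_zero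
  have h12 : (0 : ℚ) ≠ ((-9 * d : ℤ) : ℚ) := by push_cast; intro h; linarith
  have h13 : (0 : ℚ) ≠ ((16 * d : ℤ) : ℚ) := by push_cast; intro h; linarith
  have h23 : ((-9 * d : ℤ) : ℚ) ≠ ((16 * d : ℤ) : ℚ) := by push_cast; intro h; linarith
  exact finite_of_descent (pt_fg h12 h13 h23) 2 (by norm_num) (desc_d H)


theorem Dat.tw {f p Q : ℕ} (H : Dat f p Q) : Tw (f * (p * Q)) p where
  sf := H.sf
  pp := H.pp
  pd := ⟨f * Q, by ring⟩
  sq := fun hy h v1 v2 => XE.squares H hy h v1 v2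

theorem fin_tw {d p : ℕ} (H : Tw d p) (K : Type) [Field K] [NumberField K]
    (h2 : Module.finrank ℚ K = 2) (hs : ∃ s : K, s ^ 2 = -(d : K)) :
    Finite (X015 K).toAffine.Point := by
  classical
  obtain ⟨s, hs⟩ := hs
  have hf := finite_K h2 (Nat.pos_of_ne_zero H.sf.ne_zero) hs finite_1 (finite_d H)
  have hWK : (crv (0 : ℚ) 9 (-16)).baseChange K = crv (0 : K) 9 (-16) := by
    rw [base_crv]
    simp
  have hX : Pool.Agent.Y700.VR (crv (0 : K) 9 (-16)) (X015 K) 2 4 1 4 := by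
    refine ⟨two_ne_zero, ?_, ?_, ?_, ?_, ?_⟩ <;> simp only [crv, X015] <;> ring
  have hΔ : (X015 K).Δ ≠ 0 := by
    have e : (X015 K).Δ = 50625 := by
      simp only [WeierstrassCurve.Δ, WeierstrassCurve.b₂, WeierstrassCurve.b₄,
        WeierstrassCurve.b₆, WeierstrassCurve.b₈, X015]
      ring
    rw [e]
    norm_num
  have hf' : Finite (crv (0 : K) 9 (-16)).toAffine.Point := by
    rw [← hWK]; exact hf
  exact Finite.of_equiv _ (hX.equiv hΔ).symm.toEquiv

end Pool.Agent.V7H37.XE
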