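import Mathlib
import Pool.Agent.V7H37.XE.Rank

/-! Existence of the fields with a given number of prime factors. -/

set_option autoImplicit false

namespace Pool.Agent.V7H37.XE

open Pool.Agent.V7H16.XF

/-- existence of the twists with `k` further prime factors -/
theorem existence (f M h k N : ℕ) (hM : 120 ∣ M) (hM0 : 0 < M) (hh : h.Coprime M)
    (ht : (f, h % 8, h % 3, c5 h) ∈ Tab) :
    ∃ p Q : ℕ, N < p ∧ p ≡ h [MOD M] ∧ Q.primeFactors.card = k ∧
      (∀ q : ℕ, q.Prime → q ∣ Q → N < q ∧ q % 120 = 1) ∧ Dat f p Q := by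
  obtain ⟨B, hB⟩ : ∃ B, B = M + N + 6 := ⟨_, rfl⟩
  obtain ⟨Q, S, hQ⟩ := exists_sys_leaf (n := 1) squarefree_one (by norm_num) (B := B) (by omega) k
  rw [Nat.primeFactors_one, Finset.card_empty, zero_add] at hQ
  have hQ2 : ¬2 ∣ Q := by
    intro h
    have := S.s1 2 Nat.prime_two h
    omega
  obtain ⟨c, c1, c2⟩ := exists_nonsq_all Q S.sf hQ2
  have hMQ : Nat.Coprime M Q := by
    apply Nat.coprime_of_dvd
    intro q hq h1 h3
    have h4 := Nat.le_of_dvd hM0 h1
    have h5 := S.big q hq h3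
    omega
  obtain ⟨p, hp, hpp, p1, p2⟩ := dir2 hMQ hM0.ne' S.sf.ne_zero hh c1 (B + Q)
  have hpQ : ¬p ∣ Q := fun h => by
    have := Nat.le_of_dvd (Nat.pos_of_ne_zero S.sf.ne_zero) h
    omega
  have hp120 : p ≡ h [MOD 120] := p1.of_dvd hM
  have e8 : p % 8 = h % 8 := hp120.of_dvd (by norm_num : 8 ∣ 120)
  have e3 : p % 3 = h % 3 := hp120.of_dvd (by norm_num : 3 ∣ 120)
  have e5 : p % 5 = h % 5 := hp120.of_dvd (by norm_num : 5 ∣ 120)
  refine ⟨p, Q, by omega, p1, hQ, fun q hq hqQ => ⟨?_, S.s1 q hq hqQ⟩, ?_⟩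
  · have := S.big q hq hqQ
    omega
  refine ⟨hpp, by omega, S.sf, fun q hq hqQ => Or.inl (S.s1 q hq hqQ), hpQ, ?_, ?_⟩
  · have : c5 p = c5 h := by unfold c5; rw [e5]
    rw [e8, e3, this]
    exact ht
  · intro a haQ ha1
    obtain ⟨q, hq, hqa⟩ := Nat.exists_prime_and_dvd ha1
    have hqQ : q ∣ Q := hqa.trans haQ
    have : Fact q.Prime := ⟨hq⟩
    refine ⟨q, hq, Or.inr ⟨hqa, ?_⟩⟩
    obtain ⟨m, hm⟩ := haQ
    have ha0 : 0 < a := Nat.pos_of_ne_zero (by
      rintro rfl
      exact S.sf.ne_zero (by rw [hm]; simp))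
    have hdm : f * (p * Q) / a = (f * m) * p := by
      rw [hm, show f * (p * (a * m)) = a * ((f * m) * p) by ring]
      exact Nat.mul_div_cancel_left _ ha0
    rw [hdm]
    have hg : Good q := Or.inl (S.s1 q hq hqQ)
    have hqm : ¬q ∣ m := by
      intro h3
      have : q * q ∣ Q := by rw [hm]; exact mul_dvd_mul hqa h3
      exact hq.prime.not_isUnit (S.sf q this)
    have hf0 : f ≠ 0 := by
      intro h0
      have := tab_dvd _ ht
      rw [h0] at this
      exact absurd (Nat.eq_zero_of_zero_dvd this) (by norm_num)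
    have hm0 : m ≠ 0 := by
      rintro rfl
      exact hqm (dvd_zero _)
    have hsq : IsSquare ((f * m : ℕ) : ZMod q) := by
      apply sq_of_primes_nat _ (mul_ne_zero hf0 hm0)
      intro l hl hlm
      rcases hl.dvd_mul.1 hlm with h1 | h1
      · exact small_sq hq hg (prime30 hl (h1.trans (tab_dvd _ ht)))
      · apply S.s2 q l hq hl hqQ (by rw [hm]; exact h1.mul_left _)
        rintro rfl
        exact hqm h1
    have hne : ((f * m : ℕ) : ZMod q) ≠ 0 := by
      rw [Ne, ZMod.natCast_eq_zero_iff]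
      intro h3
      rcases hq.dvd_mul.1 h3 with h4 | h4
      · exact good_not30 hq hg (h4.trans (tab_dvd _ ht))
      · exact hqm h4
    intro hs
    apply c2 q hq hqQ p p2
    have e : (((f * m) * p : ℕ) : ZMod q) = ((p : ℕ) : ZMod q) * ((f * m : ℕ) : ZMod q) := by
      push_cast; ring
    rw [e] at hs
    exact sq_cancel hq hs hsq hne

end Pool.Agent.V7H37.XE
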